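import Mathlib
import Pool.Agent.V11214.HW

set_option autoImplicit false

open Set Topology

namespace Pool.Agent.Results.MP_98cb65_gt.InfiniteTorus

/-- Property (F) of a compact metric space: for some `B > 0` every continuous self-map all of
whose iterates have displacement below `B` has a fixed point. -/
def PropertyF (X : Type) [MetricSpace X] : Prop :=
  ∃ B : ℝ, 0 < B ∧ ∀ T : X → X, Continuous T →
    (∀ ν : ℕ, 1 ≤ ν → ∀ x : X, dist (T^[ν] x) x < B) → ∃ x : X, T x = x

open scoped PiCountable in
/-- There is a locally connected metric continuum without property (F). -/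
theorem result : ∃ (X : Type) (_ : MetricSpace X), CompactSpace X ∧ ConnectedSpace X ∧
    LocallyConnectedSpace X ∧ ¬ PropertyF X := by
  have hlc : LocallyConnectedSpace UnitAddCircle :=
    (QuotientAddGroup.isOpenQuotientMap_mk (G := ℝ)
      (N := AddSubgroup.zmultiples (1:ℝ))).isQuotientMap.isCoinducing.locallyConnectedSpace
  refine ⟨ℕ → UnitAddCircle, PiCountable.metricSpace, ?_, ?_, ?_, ?_⟩
  · exact (inferInstance : CompactSpace (ℕ → UnitAddCircle))
  · exact (inferInstance : ConnectedSpace (ℕ → UnitAddCircle))
  · exact (inferInstance : LocallyConnectedSpace (ℕ → UnitAddCircle))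
  · rintro ⟨B, hB, h⟩
    obtain ⟨n, hn⟩ := exists_pow_lt_of_lt_one hB (by norm_num : (2⁻¹ : ℝ) < 1)
    let T : (ℕ → UnitAddCircle) → (ℕ → UnitAddCircle) :=
      fun x => Function.update x n (x n + Pool.Agent.V11214.HW.hf)
    have hTc : Continuous T := by
      apply continuous_id.update
      exact (continuous_apply n).add continuous_const
    have hTT : ∀ x, T (T x) = x := by
      intro x
      simp only [T, Function.update_self, Function.update_idem]
      rw [Pool.Agent.V11214.HW.hf2, Function.update_eq_self]
    have hTne : ∀ x, T x ≠ x := by
      intro x hx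
      have h1 := congrFun hx n
      simp only [T, Function.update_self] at h1
      have h2 : Pool.Agent.V11214.HW.hf = 0 := by simpa using h1
      have h3 := Pool.Agent.V11214.HW.norm_hf
      rw [h2, norm_zero] at h3
      norm_num at h3
    have hd : ∀ x, dist (T x) x < B := by
      intro x
      refine lt_of_le_of_lt ?_ hn
      rw [PiCountable.dist_eq_tsum]
      rw [tsum_eq_single n]
      · exact min_le_left _ _
      · intro m hm
        have : T x m = x m := Function.update_of_ne hm _ _
        rw [this, dist_self]
        exact min_eq_right (by positivity)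
    have hit : ∀ ν : ℕ, ∀ x, T^[ν] x = x ∨ T^[ν] x = T x := by
      intro ν
      induction ν with
      | zero => intro x; left; rfl
      | succ k ih =>
        intro x
        rw [Function.iterate_succ_apply']
        rcases ih x with h1 | h1
        · right; rw [h1]
        · left; rw [h1, hTT]
    obtain ⟨x, hx⟩ := h T hTc (by
      intro ν _ x
      rcases hit ν x with h1 | h1
      · rw [h1, dist_self]; exact hB
      · rw [h1]; exact hd x)
    exact hTne x hx

end Pool.Agent.Results.MP_98cb65_gt.InfiniteTorus
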